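import Mathlib

/-! MP_7a4764_an (helper52): weighted substitution operators. -/

set_option autoImplicit false

namespace H52.WC

open Polynomial

/-- zero, or all complex zeros are real -/
def RealRooted (f : ℝ[X]) : Prop := f = 0 ∨ ∀ z : ℂ, aeval z f = 0 → z.im = 0

/-- real-rooted with nonnegative coefficients -/
def PNonneg (f : ℝ[X]) : Prop := RealRooted f ∧ ∀ n, 0 ≤ f.coeff n

lemma splits_of {f : ℝ[X]} (hf : f ≠ 0) (h : ∀ z : ℂ, aeval z f = 0 → z.im = 0) : f.Splits := by
  rw [splits_iff_splits]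
  right
  intro q hq hqf
  have hdeg : q.degree ≠ 0 := hq.degree_pos.ne'
  obtain ⟨z, hz⟩ := IsAlgClosed.exists_aeval_eq_zero ℂ q hdeg
  have h1 : aeval z f = 0 := by
    obtain ⟨r, rfl⟩ := hqf
    rw [map_mul, hz, zero_mul]
  have h2 := h z h1
  have h3 : z = (z.re : ℂ) := by
    apply Complex.ext <;> simp [h2]
  have h4 : q.IsRoot z.re := by
    rw [h3] at hz
    have : aeval ((algebraMap ℝ ℂ) z.re) q = algebraMap ℝ ℂ (aeval z.re q) :=
      aeval_algebraMap_apply ℂ z.re q
    have h5 : algebraMap ℝ ℂ (aeval z.re q) = 0 := by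
      rw [← this]
      exact hz
    have h6 : aeval z.re q = 0 := by simpa using h5
    simpa [IsRoot, coe_aeval_eq_eval] using h6
  exact degree_eq_one_of_irreducible_of_root hq h4

lemma sumsq (s : Multiset ℝ) : (s.map fun x => x ^ 2).sum = s.esymm 1 ^ 2 - 2 * s.esymm 2 := by
  have e1 : ∀ s : Multiset ℝ, s.esymm 1 = s.sum := by
    intro s
    simp [Multiset.esymm, Multiset.powersetCard_one]
  induction s using Multiset.induction with
  | empty => simp [Multiset.esymm, Multiset.powersetCard_zero_right]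
  | cons a s ih =>
    have h2 : (a ::ₘ s).esymm 2 = s.esymm 2 + a * s.sum := by
      rw [Multiset.esymm, Multiset.powersetCard_cons, Multiset.map_add, Multiset.sum_add,
        Multiset.map_map, Multiset.powersetCard_one, Multiset.map_map]
      simp only [Multiset.esymm, Function.comp_def, Multiset.prod_cons, Multiset.prod_singleton]
      congr 1
      have := Multiset.sum_map_mul_left (s := s) (a := a) (f := fun x => x)
      simpa using this
    rw [e1] at ih ⊢
    rw [h2, Multiset.map_cons, Multiset.sum_cons, Multiset.sum_cons, ih]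
    ring

lemma no_three (g : ℝ[X]) (hn : 3 ≤ g.natDegree)
    (h : ∀ r : ℝ, 0 ≤ r → ∀ z : ℂ, aeval z (g + C r) = 0 → z.im = 0) : False := by
  have hd : ∀ r : ℝ, (g + C r).natDegree = g.natDegree := fun r => natDegree_add_C
  have hne : ∀ r : ℝ, g + C r ≠ 0 := by
    intro r hr
    have := hd r
    rw [hr, natDegree_zero] at this
    omega
  have hs : ∀ r : ℝ, 0 ≤ r → (g + C r).Splits := fun r hr => splits_of (hne r) (h r hr)
  have hc : ∀ (r : ℝ) (k : ℕ), 1 ≤ k → (g + C r).coeff k = g.coeff k := by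
    intro r k hk
    rw [coeff_add, coeff_C_of_ne_zero (by omega), add_zero]
  have hl : ∀ r : ℝ, (g + C r).leadingCoeff = g.leadingCoeff := by
    intro r
    rw [leadingCoeff, leadingCoeff, hd, hc r _ (by omega)]
  have hl0 : g.leadingCoeff ≠ 0 := by
    rw [Ne, leadingCoeff_eq_zero]
    rintro rfl
    simp at hn
  set K : ℝ := (-(g.coeff (g.natDegree - 1)) / g.leadingCoeff) ^ 2 -
    2 * (g.coeff (g.natDegree - 2) / g.leadingCoeff) with hK
  have hsum : ∀ r : ℝ, 0 ≤ r → ((g + C r).roots.map fun x => x ^ 2).sum = K := by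
    intro r hr
    have h1 := Polynomial.coeff_eq_esymm_roots_of_splits (hs r hr) (k := g.natDegree - 1)
      (by rw [hd]; omega)
    have h2 := Polynomial.coeff_eq_esymm_roots_of_splits (hs r hr) (k := g.natDegree - 2)
      (by rw [hd]; omega)
    rw [hd, hl, hc r _ (by omega), show g.natDegree - (g.natDegree - 1) = 1 by omega] at h1
    rw [hd, hl, hc r _ (by omega), show g.natDegree - (g.natDegree - 2) = 2 by omega] at h2
    rw [sumsq, hK, h1, h2]
    field_simp
  obtain ⟨M, hM⟩ := (isCompact_Icc (a := -(K + 1)) (b := K + 1)).exists_bound_of_continuousOn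
    (f := fun x => g.eval x) g.continuous.continuousOn
  have hM0 : 0 ≤ |M| + 1 := by positivity
  have hcard := (hs _ hM0).natDegree_eq_card_roots
  rw [hd] at hcard
  obtain ⟨x, hx⟩ : ∃ x, x ∈ (g + C (|M| + 1)).roots := by
    apply Multiset.exists_mem_of_ne_zero
    intro h0
    rw [h0, Multiset.card_zero] at hcard
    omega
  have hx2 : x ^ 2 ≤ K := by
    rw [← hsum _ hM0]
    exact Multiset.single_le_sum (by
      intro y hy
      obtain ⟨w, _, rfl⟩ := Multiset.mem_map.1 hy
      positivity) _ (Multiset.mem_map_of_mem _ hx)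
  have hK0 : 0 ≤ K := (sq_nonneg x).trans hx2
  have hxI : x ∈ Set.Icc (-(K + 1)) (K + 1) := by
    constructor <;> nlinarith [sq_nonneg (x - 1), sq_nonneg (x + 1), sq_nonneg x]
  have h1 := hM x hxI
  have h2 : g.eval x + (|M| + 1) = 0 := by
    have := (mem_roots (hne _)).1 hx
    simpa [IsRoot] using this
  rw [Real.norm_eq_abs] at h1
  have h3 : |g.eval x| = |M| + 1 := by
    rw [show g.eval x = -(|M| + 1) by linarith, abs_neg, abs_of_nonneg hM0]
  have h4 := le_abs_self M
  linarith

lemma quad_form (g : ℝ[X]) (hn : g.natDegree = 2) (x : ℝ) :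
    g.eval x = g.coeff 2 * x ^ 2 + g.coeff 1 * x + g.coeff 0 := by
  rw [eval_eq_sum_range, hn]
  simp [Finset.sum_range_succ]
  ring

lemma two (g : ℝ[X]) (hn : g.natDegree = 2)
    (h : ∀ r : ℝ, 0 ≤ r → ∀ z : ℂ, aeval z (g + C r) = 0 → z.im = 0) :
    ∃ a b c : ℝ, 0 < a ∧ 0 ≤ c ∧ g = C c - C a * (X - C b) ^ 2 := by
  set α := g.coeff 2 with hα
  set β := g.coeff 1 with hβ
  set γ := g.coeff 0 with hγ
  have hα0 : α ≠ 0 := by
    rw [hα, ← hn]
    change g.leadingCoeff ≠ 0
    rw [Ne, leadingCoeff_eq_zero]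
    rintro rfl
    simp at hn
  have disc : ∀ r : ℝ, 0 ≤ r → 0 ≤ β ^ 2 - 4 * α * (γ + r) := by
    intro r hr
    have hdeg : (g + C r).degree ≠ 0 := by
      intro h0
      have := natDegree_eq_zero_iff_degree_le_zero.2 h0.le
      rw [natDegree_add_C, hn] at this
      omega
    obtain ⟨z, hz⟩ := IsAlgClosed.exists_aeval_eq_zero ℂ (g + C r) hdeg
    have h2 := h r hr z hz
    have h3 : z = (z.re : ℂ) := by
      apply Complex.ext <;> simp [h2]
    have h6 : (g + C r).eval z.re = 0 := by
      rw [h3] at hz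
      have : aeval ((algebraMap ℝ ℂ) z.re) (g + C r) = algebraMap ℝ ℂ (aeval z.re (g + C r)) :=
        aeval_algebraMap_apply ℂ z.re (g + C r)
      have h5 : algebraMap ℝ ℂ (aeval z.re (g + C r)) = 0 := by
        rw [← this]
        exact hz
      have h7 : aeval z.re (g + C r) = 0 :=
        (algebraMap ℝ ℂ).injective (by rw [h5, map_zero])
      simpa [coe_aeval_eq_eval] using h7
    rw [eval_add, eval_C, quad_form g hn, ← hα, ← hβ, ← hγ] at h6
    have h8 : (2 * α * z.re + β) ^ 2 = β ^ 2 - 4 * α * (γ + r) := by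
      linear_combination 4 * α * h6
    rw [← h8]
    exact sq_nonneg _
  have hneg : α < 0 := by
    rcases lt_or_gt_of_ne hα0 with h1 | h1
    · exact h1
    · exfalso
      have h2 := disc ((β ^ 2 + 4 * α * |γ| + 1) / (4 * α)) (by positivity)
      have h3 : 4 * α * (γ + (β ^ 2 + 4 * α * |γ| + 1) / (4 * α)) =
          4 * α * γ + (β ^ 2 + 4 * α * |γ| + 1) := by
        field_simp
      rw [h3] at h2
      have h4 := neg_abs_le γ
      nlinarith
  refine ⟨-α, -β / (2 * α), γ - β ^ 2 / (4 * α), by linarith, ?_, ?_⟩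
  · have h2 := disc 0 le_rfl
    have h3 : γ - β ^ 2 / (4 * α) = (β ^ 2 - 4 * α * (γ + 0)) / (-(4 * α)) := by
      field_simp
      ring
    rw [h3]
    exact div_nonneg h2 (by linarith)
  · apply Polynomial.funext
    intro x
    rw [quad_form g hn, ← hα, ← hβ, ← hγ]
    simp only [eval_sub, eval_mul, eval_pow, eval_C, eval_X]
    field_simp
    ring

end H52.WC
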